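import Pool.Agent.N209.CD.Frob

/-!
# Standard conjecture D and the conservativity conjecture

Let `C` be the category of geometric Voevodsky motives over a field `k` with rational coefficients
(or the thick tensor subcategory generated by some Chow motives), `W` the class of Chow motives in
`C`, and `R` a realisation of `C`. It is shown that for a finite field `k`

* `R` is conservative on `C` if and only if
* `R` is conservative on `W` and homological and numerical equivalence coincide for `R` on `W`
  (standard conjecture D).

In particular the conservativity of the `ℓ`-adic realisation over a finite field implies standard
conjecture D for `ℓ`-adic cohomology for all smooth projective varieties over `k`. For classes `W`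
of Chow motives on which `R` is known to be conservative, such as the motives of abelian varieties
and of products of curves, D for `W` is equivalent to the conservativity of `R` on the triangulated
category generated by `W`.

The only properties of finite fields that are used are that the Frobenius is an endomorphism of the
identity functor of `C` and that the Riemann hypothesis holds. Over any field the same equivalence
is shown if there are weights and if the Künneth components of degree zero of the classes of
objects of `W` can be lifted (this holds for abelian varieties over any field).

For the proof that conservativity implies D, let `s : 𝟙 ⟶ M` be numerically trivial with non-zero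
cohomology class and let `δ : Z ⟶ 𝟙⟦1⟧` be the boundary of the triangle of `s`. Since `s` is
numerically trivial and there are no positive extensions, the tensor powers
`δ ⊗ ⋯ ⊗ δ : Z ⊗ ⋯ ⊗ Z ⟶ 𝟙⟦n⟧` are all non-zero. They are antisymmetric and fixed under a
polynomial in the Frobenius whose cohomology is concentrated in degree zero. So for large `n` they
are fixed under an endomorphism with trivial cohomology, which is impossible if the realisation is
conservative. In the other direction, D implies that the category `W` modulo homological
equivalence is semisimple (this is proved as in the work of Jannsen, but without assuming that
the class `W` has other good properties), and weights are used to find a filtration.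
-/

set_option autoImplicit false

open CategoryTheory Limits MonoidalCategory Pretriangulated Triangulated

universe v u w

namespace Pool.Agent.Results.MP_5f0950_ag.ConservativityAndD

open Pool.Agent.Y116.MT Pool.Agent.V1178.MT Pool.Agent.N209.CD

/-- Let `W` be a class of objects with the formal properties of the class of Chow motives. Suppose
that there are weights and that the Künneth components of degree zero of classes lift, or that there
is a Frobenius for which the Riemann hypothesis holds. Then the realisation `R` is conservative if
and only if it is conservative on `W` and homological and numerical equivalence coincide on `W`. -/
theorem result {C : Type u} [Category.{v} C] [Preadditive C] [HasZeroObject C] [HasShift C ℤ]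
    [∀ n : ℤ, (shiftFunctor C n).Additive] [Pretriangulated C] [IsTriangulated C]
    [MonoidalCategory C] [SymmetricCategory C] [TensorTriangulated C] [MonoidalPreadditive C]
    [RightRigidCategory C] [Linear ℚ C]
    (hQ : ∀ e : 𝟙_ C ⟶ 𝟙_ C, ∃ q : ℚ, e = q • 𝟙 _)
    {E : Type w} [Field E] (R : Realisation C E)
    {W : ObjectProperty C} (hW : IsChowClass W)
    (h : (Nonempty (Weights R W) ∧ ComponentLifts R W) ∨ ∃ q : ℝ, Nonempty (Frobenius R W q)) :
    Conservative R ↔ ConservativeOn R W ∧ HomNum R W := by
  have h' : Nonempty (Weights R W) ∧ ComponentLifts R W := by
    rcases h with h | ⟨q, ⟨F⟩⟩
    · exact h
    · exact ⟨⟨F.weights⟩, F.lifts⟩
  obtain ⟨⟨w⟩, hl⟩ := h'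
  exact ⟨fun hR => ⟨conservativeOn_of_conservative hW hR, homNum_of_conservative hW hR hl⟩,
    fun ⟨hc, hD⟩ => conservative_of_homNum hW hQ w hc hD⟩

end Pool.Agent.Results.MP_5f0950_ag.ConservativityAndD
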