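import Pool.Agent.N209.MT.Descent

/-!
# For motivic t-structures one field in each characteristic suffices

It is shown that the existence of a motivic t-structure (non-degenerate, compatible with the tensor
product, all realisations t-exact) descends along faithful functors and passes to filtered unions:
let `C` be a category of motives which is generated by the objects whose realisations are
concentrated in degree zero. Suppose that there are functors `ρ i : D i ⥤ C` such that each morphism
`𝟙 ⟶ G⟦n⟧` of `C` comes from some `D i`, and faithful functors `F i : D i ⥤ C' i`, compatible with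
the realisations, such that each `C' i` has a motivic t-structure. Then `C` has a motivic
t-structure.

For the categories `DM_c(k)` of constructible motives over fields, the base change functors
`DM_c(k₀) ⥤ DM_c(k)` are faithful for all extensions `k / k₀` (specialise to a closed point, and use
transfers for finite extensions), and each morphism of `DM_c(k)` comes from a finitely generated
subfield. The generation by objects in degree zero is the Basic Lemma of Nori and Beilinson. So the
theorem says: if each finitely generated subfield of `k` can be embedded into some field `K` such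
that `DM_c(K)` has a motivic t-structure, then `DM_c(k)` has one. In particular

* if Q1 holds for `ℂ` (or for the algebraic closure of `ℚ(x₁, x₂, …)`), then it holds for all fields
  of characteristic zero; if it holds for the algebraic closure of `𝔽_p(x₁, x₂, …)`, then it holds
  for all fields of characteristic `p`;
* if Q1 holds for all finitely generated fields then it holds for all fields.
-/

set_option autoImplicit false

open CategoryTheory Limits MonoidalCategory Pretriangulated Triangulated

universe w v u v' u'

namespace Pool.Agent.N209.Shelf.OneFieldSuffices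

open Pool.Agent.Y116.MT Pool.Agent.N209.MT

/-- If the category `C` is generated by objects in degree zero, and the morphisms `𝟙 ⟶ G⟦n⟧` of `C`
come from categories `D i` with faithful functors, compatible with the realisations, to categories
`C' i` which have a motivic t-structure, then `C` has a motivic t-structure. -/
theorem result {C : Type u} [Category.{v} C] [Preadditive C] [HasZeroObject C] [HasShift C ℤ]
    [∀ n : ℤ, (shiftFunctor C n).Additive] [Pretriangulated C] [IsTriangulated C]
    [MonoidalCategory C] [SymmetricCategory C] [TensorTriangulated C] [MonoidalPreadditive C]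
    [RightRigidCategory C] [Linear ℚ C] [IsIdempotentComplete C]
    (hid : ∀ e : 𝟙_ C ⟶ 𝟙_ C, e ≫ e = e → e = 0 ∨ e = 𝟙 _)
    -- the ambient category of all motives, with coproducts, in which `C` consists of compact objects
    {T : Type u'} [Category.{v'} T] [Preadditive T] [HasZeroObject T] [HasShift T ℤ]
    [∀ n : ℤ, (shiftFunctor T n).Additive] [Pretriangulated T] [IsTriangulated T]
    [MonoidalCategory T] [SymmetricCategory T] [TensorTriangulated T] [MonoidalPreadditive T]
    [HasCoproducts.{max u v'} T]
    (ι : C ⥤ T) [ι.Full] [ι.Faithful] [ι.Braided] [ι.CommShift ℤ] [ι.IsTriangulated]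
    (hc : ∀ X : C, IsCompactObj.{max u v'} (ι.obj X))
    -- the realisations of `C`
    {Λ : Type} [Nonempty Λ] {E : Λ → Type w} [∀ l, Field (E l)]
    (R : ∀ l, Realisation C (E l))
    -- the categories `C' i` with their realisations
    {I : Type u} (C' : I → Type u) [∀ i, Category.{v} (C' i)] [∀ i, Preadditive (C' i)]
    [∀ i, HasZeroObject (C' i)] [∀ i, HasShift (C' i) ℤ]
    [∀ i, ∀ n : ℤ, (shiftFunctor (C' i) n).Additive] [∀ i, Pretriangulated (C' i)]
    [∀ i, IsTriangulated (C' i)] [∀ i, MonoidalCategory (C' i)] [∀ i, SymmetricCategory (C' i)]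
    [∀ i, TensorTriangulated (C' i)] [∀ i, MonoidalPreadditive (C' i)]
    [∀ i, RightRigidCategory (C' i)]
    (hid' : ∀ i, ∀ e : 𝟙_ (C' i) ⟶ 𝟙_ (C' i), e ≫ e = e → e = 0 ∨ e = 𝟙 _)
    (R' : ∀ i l, Realisation (C' i) (E l))
    -- the categories `D i` with the functors `ρ i : D i ⥤ C` and `F i : D i ⥤ C' i`
    (D : I → Type u) [∀ i, Category.{v} (D i)] [∀ i, Preadditive (D i)]
    [∀ i, MonoidalCategory (D i)] [∀ i, HasShift (D i) ℤ]
    (ρ : ∀ i, D i ⥤ C) [∀ i, (ρ i).Additive] [∀ i, (ρ i).Monoidal] [∀ i, (ρ i).CommShift ℤ]
    (F : ∀ i, D i ⥤ C' i) [∀ i, (F i).Additive] [∀ i, (F i).Monoidal] [∀ i, (F i).CommShift ℤ]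
    [∀ i, (F i).Faithful]
    (hR : ∀ i l, Nonempty (ρ i ⋙ (R l).H ≅ F i ⋙ (R' i l).H))
    (hcov : ∀ (G : C) (n : ℤ) (s : 𝟙_ C ⟶ G⟦n⟧),
      ∃ (i : I) (X : D i) (s₀ : 𝟙_ (D i) ⟶ X⟦n⟧) (j : (ρ i).obj X ≅ G), s = spanMor (ρ i) s₀ j)
    (hg : (DegreeZero R).IsClassicalTriangulatedGenerator)
    (ht' : ∀ i, ∃ t' : TStructure (C' i), IsMotivic t' (R' i)) :
    ∃ t : TStructure C, IsMotivic t R :=
  exists_of_spans hid ι hc C' hid' D ρ F hR hcov hg ht'

end Pool.Agent.N209.Shelf.OneFieldSuffices
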